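import Pool.Agent.H923R2.FZ.Stubs1

/-! (MV) the moving lemma (helper303) -/

set_option autoImplicit false

open scoped ComplexConjugate

noncomputable section

namespace Pool.Agent.H923R2.FZ.T_MV

open Pool.Agent.H923R2.FP Pool.Agent.H923R2.FZ

variable {B : Type} [CStarAlgebra B]

/-- `a b = b` implies `F(a) b = F(1) b` -/
theorem cfc_unit (a b : B) (ha : IsSelfAdjoint a) (hab : a * b = b) (F : ℝ → ℝ)
    (hF : Continuous F) : cfc F a * b = (F 1) • b := by
  by_cases hb : b = 0
  · simp [hb]
  have h1 : (1 : ℝ) ∈ spectrum ℝ a := by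
    rw [spectrum.mem_iff]
    intro hu
    have h2 : (algebraMap ℝ B 1 - a) * b = 0 := by
      rw [map_one, sub_mul, one_mul, hab, sub_self]
    exact hb ((hu.mul_right_eq_zero).mp h2)
  rw [cfc_apply F a ha hF.continuousOn]
  have key : ∀ f : C(spectrum ℝ a, ℝ), cfcHom ha f * b = (f ⟨1, h1⟩) • b := by
    intro f
    induction f using ContinuousMap.induction_on_of_compact with
    | const r =>
      have : (ContinuousMap.const (spectrum ℝ a) r) = algebraMap ℝ C(spectrum ℝ a, ℝ) r := rfl
      rw [this, AlgHomClass.commutes, ← this]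
      rw [Algebra.algebraMap_eq_smul_one, smul_mul_assoc, one_mul]
      rfl
    | id =>
      have := cfcHom_id (R := ℝ) ha
      rw [this, hab]
      simp
    | star_id =>
      have h3 : star (ContinuousMap.restrict (spectrum ℝ a) (ContinuousMap.id ℝ)) =
          ContinuousMap.restrict (spectrum ℝ a) (ContinuousMap.id ℝ) := by
        ext x; simp
      rw [h3]
      have := cfcHom_id (R := ℝ) ha
      rw [this, hab]
      simp
    | add f g hf hg => rw [map_add, add_mul, hf, hg, ← add_smul]; rfl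
    | mul f g hf hg =>
      rw [map_mul, mul_assoc, hg, mul_smul_comm, hf, smul_smul, mul_comm]; rfl
    | frequently f hf =>
      have hcl : IsClosed {g : C(spectrum ℝ a, ℝ) | cfcHom ha g * b = (g ⟨1, h1⟩) • b} := by
        refine isClosed_eq ?_ ?_
        · exact (cfcHom_continuous ha).mul continuous_const
        · have he : Continuous fun g : C(spectrum ℝ a, ℝ) => g ⟨1, h1⟩ :=
            continuous_eval_const _
          exact he.smul continuous_const
      exact hcl.mem_of_frequently_of_tendsto hf Filter.tendsto_id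
  exact key _

theorem pc_one_sub {k : B} (hk : PC k) : PC (1 - k) := by
  refine ⟨IsSelfAdjoint.sub (IsSelfAdjoint.one B) hk.1, ?_⟩
  intro t ht
  have h1 : (1 : B) - k = algebraMap ℝ B 1 - k := by rw [map_one]
  rw [h1] at ht
  rw [spectrum.mem_iff] at ht
  have h2 : (1 - t) ∈ spectrum ℝ k := by
    rw [spectrum.mem_iff]
    intro hu
    apply ht
    have h3 : algebraMap ℝ B t - (algebraMap ℝ B 1 - k) = -(algebraMap ℝ B (1 - t) - k) := by
      rw [map_sub]; abel
    rw [h3]
    exact hu.neg
  have h3 := hk.2 h2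
  rw [Set.mem_Icc] at h3 ⊢
  constructor <;> linarith [h3.1, h3.2]

theorem tau_sq_le (τ : B →ₗ[ℂ] ℂ) (hτ : FTS τ) {g : B} (hg : PC g) :
    (τ (g * g)).re ≤ (τ g).re := by
  set y : B := cfc (fun t : ℝ => Real.sqrt (t - t * t)) g with hy
  have hc : Continuous fun t : ℝ => Real.sqrt (t - t * t) := by fun_prop
  have hys : star y = y := (cfc_predicate _ g : IsSelfAdjoint y)
  have h1 : star y * y = g - g * g := by
    rw [hys, hy, ← cfc_mul _ _ g hc.continuousOn hc.continuousOn]
    have h2 : cfc (fun t : ℝ => Real.sqrt (t - t * t) * Real.sqrt (t - t * t)) g =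
        cfc (fun t : ℝ => t - t * t) g := by
      refine cfc_congr fun t ht => ?_
      have h3 := hg.2 ht
      rw [Set.mem_Icc] at h3
      exact Real.mul_self_sqrt (by nlinarith [h3.1, h3.2])
    rw [h2, cfc_sub (fun t : ℝ => t) (fun t : ℝ => t * t) g (by fun_prop) (by fun_prop),
      cfc_mul (fun t : ℝ => t) (fun t : ℝ => t) g (by fun_prop) (by fun_prop), cfc_id' ℝ g hg.1]
  have h4 := hτ.nonneg y
  rw [h1, map_sub, Complex.sub_re] at h4
  linarith

/-- the cut function -/
def GG (t : ℝ) : ℝ := max 0 (min 1 (4 * t - 3))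

theorem GG_cont : Continuous GG := by unfold GG; fun_prop

theorem GG_zero (t : ℝ) (ht : t ≤ 1 / 2) : GG t = 0 := by
  unfold GG
  have : min 1 (4 * t - 3) ≤ 0 := (min_le_right _ _).trans (by linarith)
  exact max_eq_left this

theorem GG_one : GG 1 = 1 := by unfold GG; norm_num

theorem HH_cont : Continuous fun t => GG t / Real.sqrt t := by
  have h1 : (fun t => GG t / Real.sqrt t) = fun t => GG t / max (1 / 2) (Real.sqrt t) := by
    funext t
    by_cases ht : t ≤ 1 / 2
    · rw [GG_zero t ht, zero_div, zero_div]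
    · rw [not_le] at ht
      have : (1 : ℝ) / 2 ≤ Real.sqrt t := by
        rw [show (1 : ℝ) / 2 = Real.sqrt (1 / 4) by
          rw [show (1 : ℝ) / 4 = (1 / 2) ^ 2 by norm_num, Real.sqrt_sq (by norm_num)]]
        exact Real.sqrt_le_sqrt (by linarith)
      rw [max_eq_right this]
  rw [h1]
  refine GG_cont.div (by fun_prop) fun t => ?_
  have : (0 : ℝ) < max (1 / 2) (Real.sqrt t) := lt_max_of_lt_left (by norm_num)
  exact this.ne'

theorem t_MV (hFACT : S_FACT) : S_MV := by
  intro B _ τ hτ hFC hPED hPEDH c' c g' g g1 k k1 k2 pc' pc pg' pg pg1 pk pk1 pk2 h1 h2 h3 h4 h5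
    h6 h7 hlt
  -- the free comparison
  have a1 := tau_sq_le τ hτ pg1
  have a2 := tau_sq_le τ hτ (pc_one_sub pk)
  have a3 : (τ (1 - k)).re = 1 - (τ k).re := by
    rw [map_sub, hτ.one, Complex.sub_re, Complex.one_re]
  obtain ⟨U, hU⟩ := hFC g1 (1 - k) pg1 (pc_one_sub pk) (by linarith)
  obtain ⟨x, hx, hxk⟩ := hFACT B g g1 k U pg pg1 pk h4 hU
  have kx : k1 * x = x := hxk k1 h6
  obtain ⟨w0, hw0⟩ := hPED x (1 / 2) (by norm_num)
  have b1 := hw0 GG GG_cont GG_zero
  rw [hx] at b1
  -- k1 w0 g' = w0 g'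
  have b2 : (w0 : B) * g' = x * (cfc (fun t => GG t / Real.sqrt t) g * g') := by
    have e1 := cfc_unit g g' pg.1 h3 GG GG_cont
    rw [GG_one, one_smul] at e1
    rw [← mul_assoc, ← b1, mul_assoc, e1]
  have b3 : k1 * ((w0 : B) * g') = (w0 : B) * g' := by
    rw [b2, ← mul_assoc, kx]
  -- x2
  have c1 : k1 * c = c := by
    calc k1 * c = k1 * (k * c) := by rw [h5]
      _ = (k1 * k) * c := by rw [mul_assoc]
      _ = c := by rw [h6, h5]
  have c2 : c * k1 = c := by
    have := congrArg star c1
    rw [star_mul, pc.1.star_eq, pk1.1.star_eq] at this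
    exact this
  set x2 : B := (w0 : B) * c with hx2
  have d1 : k1 * x2 = x2 := by
    rw [hx2]
    calc k1 * ((w0 : B) * c) = k1 * ((w0 : B) * (g' * c)) := by rw [h2]
      _ = (k1 * ((w0 : B) * g')) * c := by simp only [mul_assoc]
      _ = ((w0 : B) * g') * c := by rw [b3]
      _ = (w0 : B) * c := by rw [mul_assoc, h2]
  have d2 : x2 * k1 = x2 := by rw [hx2, mul_assoc, c2]
  have d3 : star x2 * x2 = c * c := by
    rw [hx2, star_mul, pc.1.star_eq]
    calc c * star (w0 : B) * ((w0 : B) * c) = c * (star (w0 : B) * (w0 : B)) * c := by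
          simp only [mul_assoc]
      _ = c * c := by rw [Unitary.coe_star_mul_self, mul_one]
  obtain ⟨w1, e1, e2, hw1⟩ := hPEDH k1 x2 pk1.1 d1 d2 (1 / 2) (by norm_num)
  have f1 := hw1 GG GG_cont GG_zero
  rw [d3] at f1
  have hcc : IsSelfAdjoint (c * c) := by
    rw [isSelfAdjoint_iff, star_mul, pc.1.star_eq]
  have hcc' : c * c * c' = c' := by rw [mul_assoc, h1, h1]
  have g1' : (w1 : B) * c' = (w0 : B) * c' := by
    have q1 := cfc_unit (c * c) c' hcc hcc' GG GG_cont
    rw [GG_one, one_smul] at q1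
    have q2 := cfc_unit (c * c) c' hcc hcc' _ HH_cont
    rw [GG_one, Real.sqrt_one, div_one, one_smul] at q2
    calc (w1 : B) * c' = (w1 : B) * (cfc GG (c * c) * c') := by rw [q1]
      _ = (w1 : B) * cfc GG (c * c) * c' := by rw [mul_assoc]
      _ = x2 * cfc (fun t => GG t / Real.sqrt t) (c * c) * c' := by rw [f1]
      _ = x2 * (cfc (fun t => GG t / Real.sqrt t) (c * c) * c') := by rw [mul_assoc]
      _ = x2 * c' := by rw [q2]
      _ = (w0 : B) * (c * c') := by rw [hx2, mul_assoc]
      _ = (w0 : B) * c' := by rw [h1]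
  -- the unitary
  refine ⟨star w1 * w0, ?_, ?_, ?_⟩
  · have : ((star w1 * w0 : unitary B) : B) = star (w1 : B) * (w0 : B) := rfl
    rw [this, mul_assoc, ← g1', ← mul_assoc, Unitary.coe_star_mul_self, one_mul]
  · have hw : ((star w1 * w0 : unitary B) : B) * c' = c' := by
      have : ((star w1 * w0 : unitary B) : B) = star (w1 : B) * (w0 : B) := rfl
      rw [this, mul_assoc, ← g1', ← mul_assoc, Unitary.coe_star_mul_self, one_mul]
    have h8 : star ((star w1 * w0 : unitary B) : B) * c' = c' := by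
      conv_lhs => rw [← hw]
      rw [← mul_assoc, Unitary.coe_star_mul_self, one_mul]
    have h9 := congrArg star h8
    rw [star_mul, star_star, pc'.1.star_eq] at h9
    exact h9
  · have hz : ((star w1 * w0 : unitary B) : B) * g' = star (w1 : B) * ((w0 : B) * g') := by
      have : ((star w1 * w0 : unitary B) : B) = star (w1 : B) * (w0 : B) := rfl
      rw [this, mul_assoc]
    rw [hz]
    set z : B := (w0 : B) * g' with hzz
    have i1 : (1 - k1) * star (w1 : B) = 1 - k1 := by
      have := congrArg star e2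
      rw [star_mul, star_sub, star_one, pk1.1.star_eq] at this
      exact this
    have i2 : k1 * (star (w1 : B) - 1) = star (w1 : B) - 1 := by
      have : k1 * (star (w1 : B) - 1) = (star (w1 : B) - 1) - ((1 - k1) * star (w1 : B) - (1 - k1)) := by
        noncomm_ring
      rw [this, i1, sub_self, sub_zero]
    have i3 : k2 * (star (w1 : B) - 1) = star (w1 : B) - 1 := by
      calc k2 * (star (w1 : B) - 1) = k2 * (k1 * (star (w1 : B) - 1)) := by rw [i2]
        _ = (k2 * k1) * (star (w1 : B) - 1) := by rw [mul_assoc]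
        _ = star (w1 : B) - 1 := by rw [h7, i2]
    have i4 : k2 * z = z := by
      calc k2 * z = k2 * (k1 * z) := by rw [b3]
        _ = (k2 * k1) * z := by rw [mul_assoc]
        _ = z := by rw [h7, b3]
    have i5 : star (w1 : B) * z = z + (star (w1 : B) - 1) * z := by noncomm_ring
    rw [i5, mul_add, i4, ← mul_assoc, i3]

end Pool.Agent.H923R2.FZ.T_MV
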