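import Pool.Agent.H923R2.FZ.JS

/-! (SEPZ) the Jiang-Su algebra is separable (helper303) -/

set_option autoImplicit false

open scoped ComplexConjugate ComplexOrder Kronecker Matrix.Norms.L2Operator

noncomputable section

namespace Pool.Agent.H923R2.FZ.T_SEPZ

open Pool.Agent.H923R2.FP Pool.Agent.H923R2.FZ TopologicalSpace

theorem sep_ddrop (p q : ℕ) : SeparableSpace (ddrop p q) := by
  have h : SecondCountableTopology C(unitInterval, Matrix (Fin p × Fin q) (Fin p × Fin q) ℂ) := by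
    have : SecondCountableTopology (Matrix (Fin p × Fin q) (Fin p × Fin q) ℂ) :=
      inferInstanceAs (SecondCountableTopology ((Fin p × Fin q) → (Fin p × Fin q) → ℂ))
    infer_instance
  infer_instance

theorem sep_D {Z : Type} [CStarAlgebra Z] (hDCL : S_DCL) (D : StarSubalgebra ℂ Z) (p q : ℕ)
    (e : D ≃⋆ₐ[ℂ] ddrop p q) : IsSeparable (D : Set Z) := by
  have : IsClosed (ddrop p q : Set C(unitInterval, Matrix (Fin p × Fin q) (Fin p × Fin q) ℂ)) :=
    hDCL p q
  have := sep_ddrop p q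
  set ψ : ddrop p q →⋆ₐ[ℂ] Z := D.subtype.comp (e.symm : ddrop p q →⋆ₐ[ℂ] D) with hψ
  let : CStarAlgebra (ddrop p q) := StarSubalgebra.cstarAlgebra (ddrop p q) (h_closed := hDCL p q)
  have hc : Continuous ψ := by
    have h1 : ∀ x, ‖ψ x‖ ≤ ‖x‖ := fun x => NonUnitalStarAlgHom.norm_apply_le ψ x
    exact AddMonoidHomClass.continuous_of_bound ψ 1 (fun x => by simpa using h1 x)
  have hr : (D : Set Z) = Set.range ψ := by
    ext z
    constructor
    · intro hz
      exact ⟨e ⟨z, hz⟩, by simp [hψ]⟩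
    · rintro ⟨w, rfl⟩
      simp [hψ]
  rw [hr]
  exact isSeparable_range hc

theorem t_SEPZ (hDCL : S_DCL) : S_SEPZ := by
  intro Z _ hZ
  obtain ⟨n, D, -, hmono, hD, htop⟩ := hZ.lim
  have h1 : ∀ k, IsSeparable (D k : Set Z) := fun k => by
    obtain ⟨e⟩ := hD k
    exact sep_D hDCL (D k) _ _ e
  have h2 : IsSeparable (⋃ k, (D k : Set Z)) := isSeparable_iUnion.mpr h1
  have h3 : ((⨆ k, D k : StarSubalgebra ℂ Z) : Set Z) = ⋃ k, (D k : Set Z) := by
    exact StarSubalgebra.coe_iSup_of_directed hmono.directed_le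
  have h4 := h2.closure
  rw [← h3] at h4
  have h5 : closure ((⨆ k, D k : StarSubalgebra ℂ Z) : Set Z) = Set.univ := by
    have := congrArg (fun S : StarSubalgebra ℂ Z => (S : Set Z)) htop
    simpa using this
  rw [h5] at h4
  exact isSeparable_univ_iff.mp h4

end Pool.Agent.H923R2.FZ.T_SEPZ
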